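import Pool.Agent.H896R2.Tri.T7F

/-!
# Task T9: an `m`-fold version of the `(9:4)` colouring
-/

namespace Pool.Agent.H171R2.Tri

open Finset

/-- a `ℚ`-linear functional which is positive on finitely many positive reals -/
theorem T9_functional (W : Submodule ℚ ℝ) [FiniteDimensional ℚ W] (F : Finset W)
    (hF : ∀ w ∈ F, 0 < (w : ℝ)) : ∃ f : W →ₗ[ℚ] ℚ, ∀ w ∈ F, 0 < f w := by
  classical
  set b := Module.finBasis ℚ W with hb
  set U : Set (Fin (Module.finrank ℚ W) → ℝ) :=
    {t | ∀ w ∈ F, 0 < ∑ k, ((b.repr w k : ℚ) : ℝ) * t k} with hU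
  have hopen : IsOpen U := by
    have h1 : U = ⋂ w ∈ F, {t | 0 < ∑ k, ((b.repr w k : ℚ) : ℝ) * t k} := by
      ext t
      simp [hU]
    rw [h1]
    refine isOpen_biInter_finset fun w _ => ?_
    exact isOpen_lt continuous_const (by fun_prop)
  have hne : U.Nonempty := by
    refine ⟨fun k => ((b k : W) : ℝ), fun w hw => ?_⟩
    have h1 := b.sum_repr w
    have h2 : (w : ℝ) = ∑ k, ((b.repr w k : ℚ) : ℝ) * ((b k : W) : ℝ) := by
      conv_lhs => rw [← h1]
      rw [Submodule.coe_sum]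
      exact Finset.sum_congr rfl fun k _ => by rw [Submodule.coe_smul, Rat.smul_def]
    rw [← h2]
    exact hF w hw
  have hd : DenseRange (fun q : Fin (Module.finrank ℚ W) → ℚ => fun k => ((q k : ℚ) : ℝ)) :=
    DenseRange.piMap (fun _ => Rat.denseRange_cast)
  obtain ⟨q, hq⟩ := hd.exists_mem_open hopen hne
  refine ⟨∑ k, q k • b.coord k, fun w hw => ?_⟩
  have h3 := hq w hw
  have h4 : ((∑ k, b.repr w k * q k : ℚ) : ℝ) = ∑ k, ((b.repr w k : ℚ) : ℝ) * (q k : ℝ) := by
    push_cast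
    rfl
  rw [← h4] at h3
  have h5 : (0 : ℚ) < ∑ k, b.repr w k * q k := by exact_mod_cast h3
  have h6 : (∑ k, q k • b.coord k) w = ∑ k, b.repr w k * q k := by
    rw [LinearMap.sum_apply]
    exact Finset.sum_congr rfl fun k _ => by
      rw [LinearMap.smul_apply, Module.Basis.coord_apply, smul_eq_mul, mul_comm]
  rw [h6]
  exact h5

/-- a rational fractional colouring with the same properties -/
theorem T9_rat (V : Finset (ℤ × ℤ)) (G : Finset (ℤ × ℤ) → Prop) (y : Finset (ℤ × ℤ) → ℝ)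
    (h0 : ∀ S, 0 ≤ y S) (h1 : ∀ S, y S ≠ 0 → G S)
    (h2 : ∀ v ∈ V, 1 ≤ ∑ S ∈ V.powerset with v ∈ S, y S)
    (h3 : ∑ S ∈ V.powerset, y S ≤ 9 / 4) :
    ∃ z : Finset (ℤ × ℤ) → ℚ, (∀ S, 0 ≤ z S) ∧ (∀ S, z S ≠ 0 → G S) ∧
      (∀ v ∈ V, 1 ≤ ∑ S ∈ V.powerset with v ∈ S, z S) ∧
      ∑ S ∈ V.powerset, z S ≤ 9 / 4 := by
  classical
  set A : Finset ℝ := insert 1 (V.powerset.image y) with hA
  set W : Submodule ℚ ℝ := Submodule.span ℚ (A : Set ℝ) with hW
  have hfd : FiniteDimensional ℚ W := FiniteDimensional.span_finset ℚ A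
  have hone : (1 : ℝ) ∈ W := Submodule.subset_span (by simp [hA])
  have hy : ∀ S ∈ V.powerset, y S ∈ W := fun S hS =>
    Submodule.subset_span (by
      rw [hA, Finset.coe_insert]
      exact Or.inr (Finset.mem_coe.2 (Finset.mem_image_of_mem y hS)))
  set one : W := ⟨1, hone⟩ with honedef
  set Y : Finset (ℤ × ℤ) → W := fun S => if hS : S ∈ V.powerset then ⟨y S, hy S hS⟩ else 0 with hY
  have hYv : ∀ S ∈ V.powerset, ((Y S : W) : ℝ) = y S := by
    intro S hS
    simp only [hY]
    rw [dif_pos hS]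
  set cv : ℤ × ℤ → W := fun v => (∑ S ∈ V.powerset with v ∈ S, Y S) - one with hcv
  set cT : W := (9 / 4 : ℚ) • one - ∑ S ∈ V.powerset, Y S with hcT
  set F : Finset W := (insert one (insert cT (V.powerset.image Y ∪ V.image cv))).filter
    (fun w => 0 < (w : ℝ)) with hF
  obtain ⟨f, hf⟩ := T9_functional W F (fun w hw => by
    rw [hF, mem_filter] at hw
    exact hw.2)
  have hpos : ∀ w ∈ insert one (insert cT (V.powerset.image Y ∪ V.image cv)),
      0 ≤ (w : ℝ) → 0 ≤ f w := by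
    intro w hw hw0
    rcases hw0.lt_or_eq with h | h
    · exact (hf w (by rw [hF, mem_filter]; exact ⟨hw, h⟩)).le
    · have : w = 0 := Subtype.ext h.symm
      rw [this, map_zero]
  have hf1 : 0 < f one := hf one (by
    rw [hF, mem_filter]
    exact ⟨mem_insert_self _ _, by simp [honedef]⟩)
  have hcvv : ∀ v ∈ V, 0 ≤ f (cv v) := by
    intro v hv
    apply hpos
    · apply mem_insert_of_mem
      apply mem_insert_of_mem
      exact mem_union_right _ (mem_image_of_mem _ hv)
    · have h4 : ((cv v : W) : ℝ) = (∑ S ∈ V.powerset with v ∈ S, y S) - 1 := by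
        rw [hcv]
        simp only [Submodule.coe_sub, Submodule.coe_sum]
        congr 1
        apply Finset.sum_congr rfl
        intro S hS
        exact hYv S (mem_filter.1 hS).1
      rw [h4]
      linarith [h2 v hv]
  have hcTT : 0 ≤ f cT := by
    apply hpos
    · exact mem_insert_of_mem (mem_insert_self _ _)
    · have h4 : ((cT : W) : ℝ) = 9 / 4 - ∑ S ∈ V.powerset, y S := by
        rw [hcT]
        simp only [Submodule.coe_sub, Submodule.coe_sum, Submodule.coe_smul, Rat.smul_def]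
        congr 1
        · simp [honedef]
        · exact Finset.sum_congr rfl fun S hS => hYv S hS
      rw [h4]
      linarith
  have hYpos : ∀ S, 0 ≤ f (Y S) := by
    intro S
    by_cases hS : S ∈ V.powerset
    · apply hpos
      · apply mem_insert_of_mem
        apply mem_insert_of_mem
        exact mem_union_left _ (mem_image_of_mem _ hS)
      · rw [hYv S hS]
        exact h0 S
    · simp only [hY]
      rw [dif_neg hS, map_zero]
  refine ⟨fun S => f (Y S) / f one, fun S => div_nonneg (hYpos S) hf1.le, ?_, ?_, ?_⟩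
  · intro S hS
    apply h1
    intro h
    apply hS
    have h5 : Y S = 0 := by
      by_cases hS' : S ∈ V.powerset
      · apply Subtype.ext
        rw [hYv S hS', h]
        rfl
      · simp only [hY]
        rw [dif_neg hS']
    beta_reduce
    rw [h5, map_zero, zero_div]
  · intro v hv
    have h5 := hcvv v hv
    rw [hcv] at h5
    simp only [map_sub, map_sum] at h5
    rw [← Finset.sum_div, le_div_iff₀ hf1]
    linarith
  · have h5 := hcTT
    rw [hcT, map_sub, map_smul, map_sum, smul_eq_mul] at h5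
    rw [← Finset.sum_div, div_le_iff₀ hf1]
    linarith

/-- an `m`-fold colouring from a rational fractional colouring -/
theorem T9_colour (V : Finset (ℤ × ℤ)) (Adj : ℤ × ℤ → ℤ × ℤ → Prop)
    (z : Finset (ℤ × ℤ) → ℚ) (h0 : ∀ S, 0 ≤ z S)
    (h1 : ∀ S, z S ≠ 0 → ∀ u ∈ S, ∀ v ∈ S, ¬ Adj u v)
    (h2 : ∀ v ∈ V, 1 ≤ ∑ S ∈ V.powerset with v ∈ S, z S)
    (h3 : ∑ S ∈ V.powerset, z S ≤ 9 / 4) :
    ∃ m : ℕ, 1 ≤ m ∧ ∃ C : ℤ × ℤ → Finset (Fin (9 * m)), (∀ v ∈ V, (C v).card = 4 * m) ∧
      ∀ u ∈ V, ∀ v ∈ V, Adj u v → Disjoint (C u) (C v) := by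
  classical
  set N : ℕ := ∏ S ∈ V.powerset, (z S).den with hN
  have hNpos : 0 < N := Finset.prod_pos fun S _ => (z S).den_pos
  have hex : ∀ S ∈ V.powerset, ∃ a : ℕ, (a : ℚ) = N * z S := by
    intro S hS
    have hdvd : (z S).den ∣ N := Finset.dvd_prod_of_mem (fun S => (z S).den) hS
    obtain ⟨k, hk⟩ := hdvd
    have hnum : 0 ≤ (z S).num := Rat.num_nonneg.2 (h0 S)
    refine ⟨k * (z S).num.toNat, ?_⟩
    have e1 : (((z S).num.toNat : ℕ) : ℚ) = ((z S).num : ℚ) := by
      have := Int.toNat_of_nonneg hnum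
      exact_mod_cast this
    have e2 : (z S) * ((z S).den : ℚ) = ((z S).num : ℚ) := Rat.mul_den_eq_num (z S)
    rw [hk]
    push_cast
    rw [e1, ← e2]
    ring
  choose! a ha using hex
  have htot : ∑ S ∈ V.powerset, 4 * a S ≤ 9 * N := by
    have e1 : ((∑ S ∈ V.powerset, 4 * a S : ℕ) : ℚ) = 4 * (N * ∑ S ∈ V.powerset, z S) := by
      push_cast
      rw [Finset.mul_sum, Finset.mul_sum]
      exact Finset.sum_congr rfl fun S hS => by rw [ha S hS]
    have e2 : ((∑ S ∈ V.powerset, 4 * a S : ℕ) : ℚ) ≤ ((9 * N : ℕ) : ℚ) := by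
      rw [e1]
      push_cast
      have : (0 : ℚ) ≤ N := by positivity
      nlinarith
    exact_mod_cast e2
  set T := (S : {S // S ∈ V.powerset}) × Fin (4 * a S) with hT
  have hTcard : Fintype.card T ≤ Fintype.card (Fin (9 * N)) := by
    have e0 : Fintype.card T = ∑ S : {S // S ∈ V.powerset}, 4 * a S :=
      Fintype.card_sigma.trans (Finset.sum_congr rfl fun S _ => Fintype.card_fin _)
    rw [Fintype.card_fin, e0, Finset.sum_coe_sort V.powerset (fun S => 4 * a S)]
    exact htot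
  obtain ⟨ι⟩ := Function.Embedding.nonempty_of_card_le hTcard
  set D : ℤ × ℤ → Finset (Fin (9 * N)) := fun v =>
    ((univ : Finset T).filter (fun t => v ∈ (t.1 : Finset (ℤ × ℤ)))).map ι with hD
  have hDcard : ∀ v ∈ V, 4 * N ≤ (D v).card := by
    intro v hv
    rw [hD]
    simp only [Finset.card_map]
    have e1 : ((univ : Finset T).filter (fun t => v ∈ (t.1 : Finset (ℤ × ℤ)))).card =
        ∑ S ∈ V.powerset with v ∈ S, 4 * a S := by
      rw [Finset.card_filter, Fintype.sum_sigma, Finset.sum_filter,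
        ← Finset.sum_coe_sort V.powerset (fun S => if v ∈ S then 4 * a S else 0)]
      apply Finset.sum_congr rfl
      intro S _
      split_ifs with h
      · simp
      · simp
    rw [e1]
    have e2 : ((∑ S ∈ V.powerset with v ∈ S, 4 * a S : ℕ) : ℚ) =
        4 * (N * ∑ S ∈ V.powerset with v ∈ S, z S) := by
      push_cast
      rw [Finset.mul_sum, Finset.mul_sum]
      exact Finset.sum_congr rfl fun S hS => by rw [ha S (mem_filter.1 hS).1]
    have e3 : ((4 * N : ℕ) : ℚ) ≤ ((∑ S ∈ V.powerset with v ∈ S, 4 * a S : ℕ) : ℚ) := by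
      rw [e2]
      push_cast
      have h4 : (0 : ℚ) ≤ N := by positivity
      have h5 := h2 v hv
      nlinarith
    exact_mod_cast e3
  have hDdisj : ∀ u ∈ V, ∀ v ∈ V, Adj u v → Disjoint (D u) (D v) := by
    intro u _ v _ huv
    rw [Finset.disjoint_left]
    intro c hcu hcv
    rw [hD] at hcu hcv
    simp only [Finset.mem_map, mem_filter, mem_univ, true_and] at hcu hcv
    obtain ⟨t, ht, htc⟩ := hcu
    obtain ⟨t', ht', htc'⟩ := hcv
    have : t = t' := ι.injective (htc.trans htc'.symm)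
    subst this
    have hpos : 0 < 4 * a (t.1 : Finset (ℤ × ℤ)) := lt_of_le_of_lt (Nat.zero_le _) t.2.2
    have hz : z (t.1 : Finset (ℤ × ℤ)) ≠ 0 := by
      intro h
      have h5 := ha t.1 t.1.2
      rw [h, mul_zero] at h5
      have : a (t.1 : Finset (ℤ × ℤ)) = 0 := by exact_mod_cast h5
      omega
    exact h1 _ hz u ht v ht' huv
  have hsub : ∀ v, ∃ C : Finset (Fin (9 * N)), C ⊆ D v ∧ (v ∈ V → C.card = 4 * N) := by
    intro v
    by_cases hv : v ∈ V
    · obtain ⟨C, hC, hc⟩ := Finset.exists_subset_card_eq (hDcard v hv)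
      exact ⟨C, hC, fun _ => hc⟩
    · exact ⟨∅, by simp, fun h => absurd h hv⟩
  choose C hC hCc using hsub
  refine ⟨N, hNpos, C, fun v hv => hCc v hv, fun u hu v hv huv => ?_⟩
  exact Finset.disjoint_of_subset_left (hC u)
    (Finset.disjoint_of_subset_right (hC v) (hDdisj u hu v hv huv))

/-- For every finite triangle-free induced subgraph of the triangular lattice there is `m ≥ 1`
such that the graph has a `4m`-fold colouring with `9m` colours. -/
theorem exists_nine_four (h : Stmt_OCT) (V : Finset (ℤ × ℤ))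
    (hV : (triLattice.induce (V : Set (ℤ × ℤ))).CliqueFree 3) :
    ∃ m : ℕ, 1 ≤ m ∧ ∃ C : ℤ × ℤ → Finset (Fin (9 * m)), (∀ v ∈ V, (C v).card = 4 * m) ∧
      ∀ u ∈ V, ∀ v ∈ V, triLattice.Adj u v → Disjoint (C u) (C v) := by
  obtain ⟨y, h0, h1, h2, h3⟩ := frac_bound h V hV
  obtain ⟨z, z0, z1, z2, z3⟩ := T9_rat V
    (fun S => S ⊆ V ∧ triLattice.IsIndepSet (S : Set (ℤ × ℤ))) y h0 h1 h2 h3
  refine T9_colour V triLattice.Adj z z0 (fun S hS u hu v hv huv => ?_) z2 z3
  exact (z1 S hS).2 (Finset.mem_coe.2 hu) (Finset.mem_coe.2 hv) huv.ne huv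

end Pool.Agent.H171R2.Tri
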